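import Pool.Agent.Helper80_PND.All

/-!
# MP_ff6f12_co: 2-connected bipartite graphs, with pendant edges

`B` 2-connected and bipartite, with `ℓ v` new pendant edges at every vertex `v` of `B` (possibly
none): the resulting graph `pendL B ℓ` is 2-Ramsey-simple.
-/

open SimpleGraph Pool.Agent.RS80 Pool.Agent.RS81

namespace Pool.Agent.Results.MP_ff6f12_co.TwoConnectedPendants

theorem result : ∀ (V : Type) [Finite V] (B : SimpleGraph V) (ℓ : V → ℕ), TwoConn B →
    B.Colorable 2 → RamseySimple (pendL B ℓ) :=
  fun V _ B ℓ hB hc => Pool.Agent.PND80.H80.topPAll V B ℓ hB hc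

end Pool.Agent.Results.MP_ff6f12_co.TwoConnectedPendants
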